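import Pool.Agent.helper62.VN.SpecG

/-!
# Project VN, block 5, row GF2: the fields `FJ`, `FW` are Lipschitz in the base point
-/

set_option autoImplicit false

open scoped MatrixGroups ContDiff Topology UpperHalfPlane
open UpperHalfPlane MeasureTheory Filter Set

namespace Pool.Agent.VNE

open Pool.Agent.RS Pool.Agent.VQE
open Pool.Agent.VQ (Dyn rho kap n1 n2 hess Ug TF)
open Pool.Agent.VN (PotN OKN Kg)

theorem GF2_mul {a a' x x' A A' X X' : ℝ} (h1 : |a' - a| ≤ A') (h2 : |a| ≤ A) (h3 : |x'| ≤ X') (h4 : |x' - x| ≤ X) :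
    |a' * x' - a * x| ≤ A' * X' + A * X := by
  have e : a' * x' - a * x = (a' - a) * x' + a * (x' - x) := by ring
  rw [e]
  refine (abs_add_le _ _).trans (add_le_add ?_ ?_)
  · rw [abs_mul]
    exact mul_le_mul h1 h3 (abs_nonneg _) ((abs_nonneg _).trans h1)
  · rw [abs_mul]
    exact mul_le_mul h2 h4 (abs_nonneg _) ((abs_nonneg _).trans h2)

theorem GF2_inv {K p : ℝ} (hK : 1 ≤ K) (hp : 1 / K ≤ p ∧ p ≤ K) : 0 < p ∧ |p⁻¹| ≤ K ∧ |p| ≤ K := by
  have hK0 : 0 < K := by linarith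
  have hp0 : 0 < p := lt_of_lt_of_le (by positivity) hp.1
  refine ⟨hp0, ?_, ?_⟩
  · rw [abs_of_pos (by positivity)]
    rw [inv_le_comm₀ hp0 hK0]
    rw [one_div] at hp
    exact hp.1
  · rw [abs_of_pos hp0]
    exact hp.2

theorem GF2_dinv {K n p p' : ℝ} (hK : 1 ≤ K) (hp : 1 / K ≤ p ∧ p ≤ K) (hp' : 1 / K ≤ p' ∧ p' ≤ K)
    (dp : |p' - p| ≤ K * n) : |p'⁻¹ - p⁻¹| ≤ K ^ 3 * n := by
  obtain ⟨h1, h2, -⟩ := GF2_inv hK hp
  obtain ⟨h3, h4, -⟩ := GF2_inv hK hp'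
  have e : p'⁻¹ - p⁻¹ = -((p' - p) * (p'⁻¹ * p⁻¹)) := by
    field_simp
    ring
  have hn : 0 ≤ K * n := (abs_nonneg _).trans dp
  rw [e, abs_neg, abs_mul, abs_mul]
  calc |p' - p| * (|p'⁻¹| * |p⁻¹|) ≤ K * n * (K * K) :=
        mul_le_mul dp (mul_le_mul h4 h2 (abs_nonneg _) (by linarith)) (by positivity) hn
    _ = K ^ 3 * n := by ring

/-- the algebra -/
theorem GF2_alg {K C n N J W p p' m m' μ μ' s s' d d' u u' v v' : ℝ} (hK : 1 ≤ K) (hC : 1 ≤ C) (hn : 0 ≤ n)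
    (hN : N = |J| + |W|)
    (hp : 1 / K ≤ p ∧ p ≤ K) (hp' : 1 / K ≤ p' ∧ p' ≤ K) (hm : |m| ≤ K) (hm' : |m'| ≤ K) (hμ : |μ| ≤ K)
    (dp : |p' - p| ≤ K * n) (dm : |m' - m| ≤ K * n) (dμ : |μ' - μ| ≤ K * n)
    (hs : s = -(p⁻¹ * J)) (hs' : s' = -(p'⁻¹ * J)) (hd : d = -W + m * (p⁻¹ * J)) (hd' : d' = -W + m' * (p'⁻¹ * J))
    (hu' : |u'| ≤ 2 * C * K ^ 2 * N) (hv' : |v'| ≤ 2 * C * K ^ 2 * N)
    (du : |u' - u| ≤ 6 * C * K ^ 4 * (n * N)) (dv : |v' - v| ≤ 6 * C * K ^ 4 * (n * N)) :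
    |(-(p' ^ 2 * m' * s') - p' * (d' + (v' - u'))) - (-(p ^ 2 * m * s) - p * (d + (v - u)))| ≤ 40 * C * K ^ 6 * n * N ∧
    |(-s' - (u' + v') - μ' * s' - m' * (d' + (v' - u'))) - (-s - (u + v) - μ * s - m * (d + (v - u)))| ≤ 40 * C * K ^ 6 * n * N := by
  have hK0 : 0 < K := by linarith
  obtain ⟨p0, pi1, p1⟩ := GF2_inv hK hp
  obtain ⟨p0', pi1', p1'⟩ := GF2_inv hK hp'
  have di := GF2_dinv hK hp hp' dp
  have hJN : |J| ≤ N := by rw [hN]; linarith [abs_nonneg W]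
  have hWN : |W| ≤ N := by rw [hN]; linarith [abs_nonneg J]
  have hN0 : 0 ≤ N := (abs_nonneg _).trans hJN
  have hnN : 0 ≤ n * N := mul_nonneg hn hN0
  have k1 : K ≤ K ^ 2 := by nlinarith
  have k2 : (1 : ℝ) ≤ K ^ 2 := by nlinarith
  have k3 : K ^ 2 ≤ K ^ 3 := pow_le_pow_right₀ hK (by norm_num)
  have k4 : K ^ 3 ≤ K ^ 4 := pow_le_pow_right₀ hK (by norm_num)
  have k5 : K ^ 4 ≤ K ^ 5 := pow_le_pow_right₀ hK (by norm_num)
  have k6 : K ^ 5 ≤ K ^ 6 := pow_le_pow_right₀ hK (by norm_num)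
  -- the products `p⁻¹ J`
  have q1 : |p⁻¹ * J| ≤ K * N := by
    rw [abs_mul]
    exact mul_le_mul pi1 hJN (abs_nonneg _) hK0.le
  have q1' : |p'⁻¹ * J| ≤ K * N := by
    rw [abs_mul]
    exact mul_le_mul pi1' hJN (abs_nonneg _) hK0.le
  have q2 : |p'⁻¹ * J - p⁻¹ * J| ≤ K ^ 3 * (n * N) := by
    have e : p'⁻¹ * J - p⁻¹ * J = (p'⁻¹ - p⁻¹) * J := by ring
    rw [e, abs_mul]
    calc |p'⁻¹ - p⁻¹| * |J| ≤ K ^ 3 * n * N := mul_le_mul di hJN (abs_nonneg _) (by positivity)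
      _ = K ^ 3 * (n * N) := by ring
  have S' : |s'| ≤ K * N := by rw [hs', abs_neg]; exact q1'
  have DS : |s' - s| ≤ K ^ 3 * (n * N) := by
    have e : s' - s = -(p'⁻¹ * J - p⁻¹ * J) := by rw [hs, hs']; ring
    rw [e, abs_neg]
    exact q2
  have mq := GF2_mul dm hm q1' q2
  have DD : |d' - d| ≤ 2 * K ^ 4 * (n * N) := by
    have e : d' - d = m' * (p'⁻¹ * J) - m * (p⁻¹ * J) := by rw [hd, hd']; ring
    rw [e]
    have h1 : K * n * (K * N) + K * (K ^ 3 * (n * N)) = K ^ 2 * (n * N) + K ^ 4 * (n * N) := by ring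
    have h2 : K ^ 2 * (n * N) ≤ K ^ 4 * (n * N) := mul_le_mul_of_nonneg_right (by linarith) hnN
    linarith
  have D' : |d'| ≤ 2 * K ^ 2 * N := by
    have h1 : |m' * (p'⁻¹ * J)| ≤ K * (K * N) := by
      rw [abs_mul]
      exact mul_le_mul hm' q1' (abs_nonneg _) hK0.le
    have h2 : |d'| ≤ |W| + |m' * (p'⁻¹ * J)| := by
      rw [hd']
      refine (abs_add_le _ _).trans ?_
      rw [abs_neg]
    have h3 : N ≤ K ^ 2 * N := le_mul_of_one_le_left hN0 k2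
    nlinarith
  have hCN : K ^ 2 * N ≤ C * (K ^ 2 * N) := le_mul_of_one_le_left (by positivity) hC
  have E' : |d' + (v' - u')| ≤ 6 * C * K ^ 2 * N := by
    have h1 : |d' + (v' - u')| ≤ |d'| + (|v'| + |u'|) := (abs_add_le _ _).trans (add_le_add le_rfl (abs_sub _ _))
    nlinarith
  have hCn : K ^ 4 * (n * N) ≤ C * (K ^ 4 * (n * N)) := le_mul_of_one_le_left (by positivity) hC
  have DE : |(d' + (v' - u')) - (d + (v - u))| ≤ 14 * C * K ^ 4 * (n * N) := by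
    have e : (d' + (v' - u')) - (d + (v - u)) = (d' - d) + ((v' - v) - (u' - u)) := by ring
    rw [e]
    have h1 : |(d' - d) + ((v' - v) - (u' - u))| ≤ |d' - d| + (|v' - v| + |u' - u|) :=
      (abs_add_le _ _).trans (add_le_add le_rfl (abs_sub _ _))
    nlinarith
  -- `p² m`
  have P2 : |p' ^ 2 - p ^ 2| ≤ 2 * K ^ 2 * n := by
    have h1 := GF2_mul dp p1 p1' dp
    have e : p' ^ 2 - p ^ 2 = p' * p' - p * p := by ring
    rw [e]
    have e2 : K * n * K + K * (K * n) = 2 * K ^ 2 * n := by ring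
    linarith
  have P2b : |p ^ 2| ≤ K ^ 2 := by
    rw [abs_pow]
    exact pow_le_pow_left₀ (abs_nonneg _) p1 2
  have PM : |p' ^ 2 * m' - p ^ 2 * m| ≤ 3 * K ^ 3 * n := by
    have h1 := GF2_mul P2 P2b hm' dm
    have e2 : 2 * K ^ 2 * n * K + K ^ 2 * (K * n) = 3 * K ^ 3 * n := by ring
    linarith
  have PMb : |p ^ 2 * m| ≤ K ^ 3 := by
    rw [abs_mul]
    calc |p ^ 2| * |m| ≤ K ^ 2 * K := mul_le_mul P2b hm (abs_nonneg _) (by positivity)
      _ = K ^ 3 := by ring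
  have T1 := GF2_mul PM PMb S' DS
  have T2 := GF2_mul dp p1 E' DE
  have T3 := GF2_mul dμ hμ S' DS
  have T4 := GF2_mul dm hm E' DE
  have b1 : 3 * K ^ 3 * n * (K * N) + K ^ 3 * (K ^ 3 * (n * N)) ≤ 4 * (C * (K ^ 6 * (n * N))) := by
    have e : 3 * K ^ 3 * n * (K * N) + K ^ 3 * (K ^ 3 * (n * N)) = 3 * (K ^ 4 * (n * N)) + K ^ 6 * (n * N) := by ring
    have h1 : K ^ 4 * (n * N) ≤ K ^ 6 * (n * N) := mul_le_mul_of_nonneg_right (by linarith) hnN
    have h2 : K ^ 6 * (n * N) ≤ C * (K ^ 6 * (n * N)) := le_mul_of_one_le_left (by positivity) hC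
    linarith
  have b2 : K * n * (6 * C * K ^ 2 * N) + K * (14 * C * K ^ 4 * (n * N)) ≤ 20 * (C * (K ^ 6 * (n * N))) := by
    have e : K * n * (6 * C * K ^ 2 * N) + K * (14 * C * K ^ 4 * (n * N)) = 6 * (C * (K ^ 3 * (n * N))) + 14 * (C * (K ^ 5 * (n * N))) := by ring
    have h1 : C * (K ^ 3 * (n * N)) ≤ C * (K ^ 6 * (n * N)) :=
      mul_le_mul_of_nonneg_left (mul_le_mul_of_nonneg_right (by linarith) hnN) (by linarith)
    have h2 : C * (K ^ 5 * (n * N)) ≤ C * (K ^ 6 * (n * N)) :=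
      mul_le_mul_of_nonneg_left (mul_le_mul_of_nonneg_right (by linarith) hnN) (by linarith)
    linarith
  have b3 : K * n * (K * N) + K * (K ^ 3 * (n * N)) ≤ 2 * (C * (K ^ 6 * (n * N))) := by
    have e : K * n * (K * N) + K * (K ^ 3 * (n * N)) = K ^ 2 * (n * N) + K ^ 4 * (n * N) := by ring
    have h1 : K ^ 2 * (n * N) ≤ K ^ 6 * (n * N) := mul_le_mul_of_nonneg_right (by linarith) hnN
    have h2 : K ^ 4 * (n * N) ≤ K ^ 6 * (n * N) := mul_le_mul_of_nonneg_right (by linarith) hnN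
    have h3 : K ^ 6 * (n * N) ≤ C * (K ^ 6 * (n * N)) := le_mul_of_one_le_left (by positivity) hC
    linarith
  have b4 : K ^ 3 * (n * N) ≤ C * (K ^ 6 * (n * N)) := by
    have h1 : K ^ 3 * (n * N) ≤ K ^ 6 * (n * N) := mul_le_mul_of_nonneg_right (by linarith) hnN
    have h3 : K ^ 6 * (n * N) ≤ C * (K ^ 6 * (n * N)) := le_mul_of_one_le_left (by positivity) hC
    linarith
  have b5 : 6 * C * K ^ 4 * (n * N) ≤ 6 * (C * (K ^ 6 * (n * N))) := by
    have h2 : C * (K ^ 4 * (n * N)) ≤ C * (K ^ 6 * (n * N)) :=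
      mul_le_mul_of_nonneg_left (mul_le_mul_of_nonneg_right (by linarith) hnN) (by linarith)
    linarith
  have e0 : 40 * C * K ^ 6 * n * N = 40 * (C * (K ^ 6 * (n * N))) := by ring
  have hpos : 0 ≤ C * (K ^ 6 * (n * N)) := by positivity
  rw [e0]
  constructor
  · have e : (-(p' ^ 2 * m' * s') - p' * (d' + (v' - u'))) - (-(p ^ 2 * m * s) - p * (d + (v - u))) =
        -((p' ^ 2 * m' * s' - p ^ 2 * m * s) + (p' * (d' + (v' - u')) - p * (d + (v - u)))) := by ring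
    rw [e, abs_neg]
    refine (abs_add_le _ _).trans ?_
    linarith
  · have e : (-s' - (u' + v') - μ' * s' - m' * (d' + (v' - u'))) - (-s - (u + v) - μ * s - m * (d + (v - u))) =
        -(((s' - s) + ((u' - u) + (v' - v))) + ((μ' * s' - μ * s) + (m' * (d' + (v' - u')) - m * (d + (v - u))))) := by ring
    rw [e, abs_neg]
    have h1 : |((s' - s) + ((u' - u) + (v' - v))) + ((μ' * s' - μ * s) + (m' * (d' + (v' - u')) - m * (d + (v - u))))| ≤
        (|s' - s| + (|u' - u| + |v' - v|)) + (|μ' * s' - μ * s| + |m' * (d' + (v' - u')) - m * (d + (v - u))|) :=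
      (abs_add_le _ _).trans (add_le_add ((abs_add_le _ _).trans (add_le_add le_rfl (abs_add_le _ _))) (abs_add_le _ _))
    linarith

theorem GF2_proof (h1 : GLH_stmt) : GF2_stmt := by
  intro K hK
  obtain ⟨C, hC, hG⟩ := h1 K hK
  have hK0 : 0 < K := by linarith
  have hC0 : 0 < C := by linarith
  have k2 : (1 : ℝ) ≤ K ^ 2 := one_le_pow₀ hK
  have k6 : K ≤ K ^ 6 := by
    calc K = K ^ 1 := (pow_one K).symm
      _ ≤ K ^ 6 := pow_le_pow_right₀ hK (by norm_num)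
  have k26 : K ^ 2 ≤ K ^ 6 := pow_le_pow_right₀ hK (by norm_num)
  refine ⟨40 * C * K ^ 6, by nlinarith, fun X pa qa qd hP g E J W hJW => ?_⟩
  obtain ⟨N, hN⟩ : ∃ N, N = |J| + |W| := ⟨_, rfl⟩
  obtain ⟨n, hn⟩ : ∃ n, n = nm E := ⟨_, rfl⟩
  have hn0 : 0 ≤ n := by
    rw [hn]
    unfold nm
    exact le_max_of_le_left (le_max_of_le_left (abs_nonneg _))
  have hJN : |J| ≤ N := by rw [hN]; linarith [abs_nonneg W]
  have hWN : |W| ≤ N := by rw [hN]; linarith [abs_nonneg J]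
  have hN0 : 0 ≤ N := (abs_nonneg _).trans hJN
  have hsmall : K ^ 2 * N ≤ 1 / C := by
    rw [← hN, le_div_iff₀ (by positivity)] at hJW
    rw [le_div_iff₀ hC0]
    have h2 : K ^ 2 * N * C ≤ N * (40 * C * K ^ 6) := by
      have h3 : K ^ 2 * (N * C) ≤ K ^ 6 * (N * C) := mul_le_mul_of_nonneg_right k26 (by positivity)
      have h4 : 0 ≤ K ^ 6 * (N * C) := by positivity
      nlinarith
    linarith
  have hp := hP.pb g
  have hp' := hP.pb (g * E)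
  obtain ⟨-, hm, hμ⟩ := hP.qb g
  obtain ⟨-, hm', -⟩ := hP.qb (g * E)
  obtain ⟨dp, -, dm, dμ, -⟩ := hP.lip g E
  rw [← hn] at dp dm dμ
  -- sums and differences of `bj`, `cj`
  have hsum : ∀ x : SL(2, ℝ), bj X x J W + cj X x J W = -((X.p x)⁻¹ * J) := by
    intro x
    unfold bj cj
    rw [div_eq_inv_mul, div_eq_inv_mul]
    ring
  have hdif : ∀ x : SL(2, ℝ), cj X x J W - bj X x J W = -W + X.m x * ((X.p x)⁻¹ * J) := by
    intro x
    unfold bj cj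
    rw [div_eq_inv_mul, div_eq_inv_mul]
    ring
  have hsize : ∀ x : SL(2, ℝ), |bj X x J W| ≤ K ^ 2 * N ∧ |cj X x J W| ≤ K ^ 2 * N := by
    intro x
    obtain ⟨-, pi1, -⟩ := GF2_inv hK (hP.pb x)
    have q1 : |(X.p x)⁻¹ * J| ≤ K * N := by
      rw [abs_mul]
      exact mul_le_mul pi1 hJN (abs_nonneg _) hK0.le
    have q2 : |X.m x * ((X.p x)⁻¹ * J)| ≤ K * (K * N) := by
      rw [abs_mul]
      exact mul_le_mul (hP.qb x).2.1 q1 (abs_nonneg _) hK0.le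
    have hx1 : |(X.p x)⁻¹ * J| ≤ K * |J| := by
      rw [abs_mul]
      exact mul_le_mul_of_nonneg_right pi1 (abs_nonneg _)
    have hx2 : |X.m x * ((X.p x)⁻¹ * J)| ≤ K ^ 2 * |J| := by
      rw [abs_mul]
      calc |X.m x| * |(X.p x)⁻¹ * J| ≤ K * (K * |J|) := mul_le_mul (hP.qb x).2.1 hx1 (abs_nonneg _) hK0.le
        _ = K ^ 2 * |J| := by ring
    have hx3 : K * |J| ≤ K ^ 2 * |J| := mul_le_mul_of_nonneg_right (by nlinarith) (abs_nonneg _)
    have hx4 : |W| ≤ K ^ 2 * |W| := le_mul_of_one_le_left (abs_nonneg _) k2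
    have hx5 : 0 ≤ |W| := abs_nonneg _
    have e1 : bj X x J W = (-((X.p x)⁻¹ * J) - (-W + X.m x * ((X.p x)⁻¹ * J))) / 2 := by
      rw [← hsum x, ← hdif x]
      ring
    have e2 : cj X x J W = (-((X.p x)⁻¹ * J) + (-W + X.m x * ((X.p x)⁻¹ * J))) / 2 := by
      rw [← hsum x, ← hdif x]
      ring
    have a1 := abs_le.1 hx1
    have a2 := abs_le.1 hx2
    have a3 := abs_le.1 (le_refl |W|)
    rw [e1, e2, hN]
    refine ⟨abs_le.2 ⟨?_, ?_⟩, abs_le.2 ⟨?_, ?_⟩⟩ <;> linarith [a1.1, a1.2, a2.1, a2.2, a3.1, a3.2]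
  have hle : ∀ x : SL(2, ℝ), |bj X x J W| ≤ 1 / C ∧ |cj X x J W| ≤ 1 / C := fun x =>
    ⟨(hsize x).1.trans hsmall, (hsize x).2.trans hsmall⟩
  have hz : |(0 : ℝ)| ≤ 1 / C := by
    rw [abs_zero]
    positivity
  -- differences of `bj`, `cj`
  have di := GF2_dinv hK hp hp' dp
  obtain ⟨-, pi1', -⟩ := GF2_inv hK hp'
  have q1' : |(X.p (g * E))⁻¹ * J| ≤ K * N := by
    rw [abs_mul]
    exact mul_le_mul pi1' hJN (abs_nonneg _) hK0.le
  have q2 : |(X.p (g * E))⁻¹ * J - (X.p g)⁻¹ * J| ≤ K ^ 3 * (n * N) := by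
    have e : (X.p (g * E))⁻¹ * J - (X.p g)⁻¹ * J = ((X.p (g * E))⁻¹ - (X.p g)⁻¹) * J := by ring
    rw [e, abs_mul]
    calc |(X.p (g * E))⁻¹ - (X.p g)⁻¹| * |J| ≤ K ^ 3 * n * N := mul_le_mul di hJN (abs_nonneg _) (by positivity)
      _ = K ^ 3 * (n * N) := by ring
  have mq := GF2_mul dm hm q1' q2
  have hnN : 0 ≤ n * N := mul_nonneg hn0 hN0
  have hmq : K * n * (K * N) + K * (K ^ 3 * (n * N)) ≤ 2 * K ^ 4 * (n * N) := by
    have e : K * n * (K * N) + K * (K ^ 3 * (n * N)) = K ^ 2 * (n * N) + K ^ 4 * (n * N) := by ring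
    have h2 : K ^ 2 * (n * N) ≤ K ^ 4 * (n * N) :=
      mul_le_mul_of_nonneg_right (pow_le_pow_right₀ hK (by norm_num)) hnN
    linarith
  have hk34 : K ^ 3 * (n * N) ≤ K ^ 4 * (n * N) :=
    mul_le_mul_of_nonneg_right (pow_le_pow_right₀ hK (by norm_num)) hnN
  have hk4 : 0 ≤ K ^ 4 * (n * N) := by positivity
  have db : |bj X (g * E) J W - bj X g J W| ≤ 2 * K ^ 4 * (n * N) ∧ |cj X (g * E) J W - cj X g J W| ≤ 2 * K ^ 4 * (n * N) := by
    have s1 := hsum (g * E)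
    have s2 := hsum g
    have t1 := hdif (g * E)
    have t2 := hdif g
    have a1 := abs_le.1 q2
    have a2 := abs_le.1 (mq.trans hmq)
    refine ⟨abs_le.2 ⟨?_, ?_⟩, abs_le.2 ⟨?_, ?_⟩⟩ <;> linarith [a1.1, a1.2, a2.1, a2.2]
  -- `uj`, `vj`
  obtain ⟨G1, G2, G3, G4, -, -⟩ := hG X pa qa qd hP (g * E) 1 _ _ _ _ (hle (g * E)).1 (hle (g * E)).2 (hle g).1 (hle g).2
  obtain ⟨G5, G6, -, -, -, -⟩ := hG X pa qa qd hP (g * E) 1 _ _ 0 0 (hle (g * E)).1 (hle (g * E)).2 hz hz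
  obtain ⟨-, -, -, -, G7, G8⟩ := hG X pa qa qd hP g E _ _ 0 0 (hle g).1 (hle g).2 hz hz
  rw [G3, sub_zero, sub_zero, sub_zero] at G5
  rw [G4, sub_zero, sub_zero, sub_zero] at G6
  have hbc' : |bj X (g * E) J W| + |cj X (g * E) J W| ≤ 2 * (K ^ 2 * N) := by
    linarith [(hsize (g * E)).1, (hsize (g * E)).2]
  have hbc : |bj X g J W| + |cj X g J W| ≤ 2 * (K ^ 2 * N) := by
    linarith [(hsize g).1, (hsize g).2]
  have hu' : |uj X (g * E) J W| ≤ 2 * C * K ^ 2 * N := by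
    have h2 := mul_le_mul_of_nonneg_left hbc' hC0.le
    exact G5.trans (h2.trans (le_of_eq (by ring)))
  have hv' : |vj X (g * E) J W| ≤ 2 * C * K ^ 2 * N := by
    have h2 := mul_le_mul_of_nonneg_left hbc' hC0.le
    exact G6.trans (h2.trans (le_of_eq (by ring)))
  have hd1 : C * (|bj X (g * E) J W - bj X g J W| + |cj X (g * E) J W - cj X g J W|) ≤ 4 * C * K ^ 4 * (n * N) := by
    have h2 : |bj X (g * E) J W - bj X g J W| + |cj X (g * E) J W - cj X g J W| ≤ 4 * (K ^ 4 * (n * N)) := by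
      linarith [db.1, db.2]
    exact (mul_le_mul_of_nonneg_left h2 hC0.le).trans (le_of_eq (by ring))
  have hd2 : C * nm E * (|bj X g J W| + |cj X g J W|) ≤ 2 * C * K ^ 4 * (n * N) := by
    rw [← hn]
    have h2 := mul_le_mul_of_nonneg_left hbc (show 0 ≤ C * n by positivity)
    have h3 : C * n * (2 * (K ^ 2 * N)) = 2 * C * (K ^ 2 * (n * N)) := by ring
    have h4 : K ^ 2 * (n * N) ≤ K ^ 4 * (n * N) := mul_le_mul_of_nonneg_right (pow_le_pow_right₀ hK (by norm_num)) hnN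
    have h5 := mul_le_mul_of_nonneg_left h4 (show 0 ≤ 2 * C by positivity)
    linarith
  have du : |uj X (g * E) J W - uj X g J W| ≤ 6 * C * K ^ 4 * (n * N) := by
    have h2 : |uj X (g * E) J W - uj X g J W| ≤
        |hu X.p X.q (g * E) (bj X (g * E) J W) (cj X (g * E) J W) - hu X.p X.q (g * E) (bj X g J W) (cj X g J W)| +
        |hu X.p X.q (g * E) (bj X g J W) (cj X g J W) - hu X.p X.q g (bj X g J W) (cj X g J W)| := abs_sub_le _ _ _
    linarith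
  have dv : |vj X (g * E) J W - vj X g J W| ≤ 6 * C * K ^ 4 * (n * N) := by
    have h2 : |vj X (g * E) J W - vj X g J W| ≤
        |hv X.p X.q (g * E) (bj X (g * E) J W) (cj X (g * E) J W) - hv X.p X.q (g * E) (bj X g J W) (cj X g J W)| +
        |hv X.p X.q (g * E) (bj X g J W) (cj X g J W) - hv X.p X.q g (bj X g J W) (cj X g J W)| := abs_sub_le _ _ _
    linarith
  have key := GF2_alg (s := bj X g J W + cj X g J W) (s' := bj X (g * E) J W + cj X (g * E) J W)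
    (d := cj X g J W - bj X g J W) (d' := cj X (g * E) J W - bj X (g * E) J W)
    hK hC hn0 hN hp hp' hm hm' hμ dp dm dμ (hsum g) (hsum (g * E)) (hdif g) (hdif (g * E)) hu' hv' du dv
  rw [← hn, ← hN]
  exact key

end Pool.Agent.VNE
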